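import Pool.Agent.Q75.BkSym
set_option autoImplicit false

/-! # MP_f98e31_an, Q1: Burns–Krantz rigidity at the smooth boundary points of the symmetrized bidisc

`symBidisc` is `{(a + b, a b) : |a| < 1, |b| < 1}`, `shilov` is `{(a + b, a b) : |a| = |b| = 1}` and
`eucl` is the Euclidean norm of `ℂ²`.

The proof: with the Cayley transform sending the modulus one root of the boundary point to infinity,
the symmetrized bidisc becomes the set of `(x + y, x y)` with `Re x, Re y > 0`. Two applications of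
the Julia–Wolff theorem (in `x` and in `y`) and a Hopf type lemma show that a self-map satisfying
the condition preserves `x + y`. If `δ` denotes the change of `x y`, then
`Re (δ / (y + conj x)) ≥ - Re x`, and the maximum principle together with the Hopf type lemma gives
`δ = 0`. -/

namespace Pool.Agent.Results.MP_f98e31_an.SmoothPointRigidity

open Filter Topology Set Metric Asymptotics Q75.Bk

/-- `F` satisfies the Burns–Krantz condition at the boundary point `p` of `D`: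
`F z = z + o(‖z - p‖ ^ 3)` as `z → p`, `z ∈ D`. -/
def BurnsKrantzAt (D : Set (ℂ × ℂ)) (p : ℂ × ℂ) (F : ℂ × ℂ → ℂ × ℂ) : Prop :=
  (fun z : ℂ × ℂ => eucl (F z - z)) =o[𝓝[D] p] fun z : ℂ × ℂ => eucl (z - p) ^ 3

/-- The pair `(D, p)` has the Burns–Krantz rigidity property: every holomorphic `F : D → D` which
satisfies the Burns–Krantz condition at `p` is the identity map of `D`. -/
def HasBurnsKrantzRigidity (D : Set (ℂ × ℂ)) (p : ℂ × ℂ) : Prop :=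
  ∀ F : ℂ × ℂ → ℂ × ℂ, DifferentiableOn ℂ F D → MapsTo F D D → BurnsKrantzAt D p F →
    ∀ z ∈ D, F z = z

lemma norm_sub_conj_mul (a b : ℂ) : (a + b) - (starRingEnd ℂ) (a + b) * (a * b) =
    a * ((1 - ‖b‖ ^ 2 : ℝ) : ℂ) + b * ((1 - ‖a‖ ^ 2 : ℝ) : ℂ) := by
  have h1 : (starRingEnd ℂ) a * a = ((‖a‖ ^ 2 : ℝ) : ℂ) := by
    rw [mul_comm, Complex.mul_conj, Complex.normSq_eq_norm_sq]
  have h2 : (starRingEnd ℂ) b * b = ((‖b‖ ^ 2 : ℝ) : ℂ) := by
    rw [mul_comm, Complex.mul_conj, Complex.normSq_eq_norm_sq]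
  rw [map_add]
  push_cast at h1 h2 ⊢
  linear_combination (-b) * h1 - a * h2

lemma exists_roots (z : ℂ × ℂ) : ∃ a b : ℂ, z = (a + b, a * b) := by
  obtain ⟨r, hr⟩ := IsAlgClosed.exists_pow_nat_eq (z.1 ^ 2 - 4 * z.2) two_pos
  refine ⟨(z.1 + r) / 2, (z.1 - r) / 2, Prod.ext ?_ ?_⟩
  · simp only
    ring
  · simp only
    linear_combination (1 / 4 : ℂ) * hr

lemma key_ge {a b : ℂ} (ha : 1 ≤ ‖a‖) (hab : ‖a * b‖ < 1) :
    1 - ‖a * b‖ ^ 2 ≤ ‖(a + b) - (starRingEnd ℂ) (a + b) * (a * b)‖ := by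
  rw [norm_sub_conj_mul]
  rw [norm_mul] at *
  have hb : ‖b‖ < 1 := by nlinarith [norm_nonneg b]
  have h1 : ‖a * ((1 - ‖b‖ ^ 2 : ℝ) : ℂ)‖ = ‖a‖ * (1 - ‖b‖ ^ 2) := by
    rw [norm_mul, Complex.norm_real, Real.norm_of_nonneg (by nlinarith [norm_nonneg b])]
  have h2 : ‖b * ((1 - ‖a‖ ^ 2 : ℝ) : ℂ)‖ = ‖b‖ * (‖a‖ ^ 2 - 1) := by
    rw [norm_mul, Complex.norm_real, Real.norm_of_nonpos (by nlinarith), neg_sub]
  have h3 : ‖a * ((1 - ‖b‖ ^ 2 : ℝ) : ℂ)‖ ≤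
      ‖a * ((1 - ‖b‖ ^ 2 : ℝ) : ℂ) + b * ((1 - ‖a‖ ^ 2 : ℝ) : ℂ)‖ +
        ‖b * ((1 - ‖a‖ ^ 2 : ℝ) : ℂ)‖ := by
    have := norm_sub_le (a * ((1 - ‖b‖ ^ 2 : ℝ) : ℂ) + b * ((1 - ‖a‖ ^ 2 : ℝ) : ℂ))
      (b * ((1 - ‖a‖ ^ 2 : ℝ) : ℂ))
    rwa [add_sub_cancel_right] at this
  rw [h1, h2] at h3
  have h4 : 0 ≤ (‖a‖ - 1) * (1 - ‖b‖) := mul_nonneg (by linarith) (by linarith)
  have h5 : 0 ≤ (‖a‖ - 1) * (1 - ‖b‖) * (1 - ‖a‖ * ‖b‖) := mul_nonneg h4 (by linarith)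
  nlinarith

lemma symBidisc_eq : symBidisc =
    {z : ℂ × ℂ | ‖z.2‖ < 1 ∧ ‖z.1 - (starRingEnd ℂ) z.1 * z.2‖ < 1 - ‖z.2‖ ^ 2} := by
  ext z
  constructor
  · rintro ⟨a, b, ha, hb, rfl⟩
    have hab : ‖a * b‖ < 1 := by
      rw [norm_mul]
      nlinarith [norm_nonneg a, norm_nonneg b]
    refine ⟨hab, ?_⟩
    show ‖(a + b) - (starRingEnd ℂ) (a + b) * (a * b)‖ < 1 - ‖a * b‖ ^ 2
    rw [norm_sub_conj_mul]
    have h1 : ‖a * ((1 - ‖b‖ ^ 2 : ℝ) : ℂ)‖ = ‖a‖ * (1 - ‖b‖ ^ 2) := by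
      rw [norm_mul, Complex.norm_real, Real.norm_of_nonneg (by nlinarith [norm_nonneg b])]
    have h2 : ‖b * ((1 - ‖a‖ ^ 2 : ℝ) : ℂ)‖ = ‖b‖ * (1 - ‖a‖ ^ 2) := by
      rw [norm_mul, Complex.norm_real, Real.norm_of_nonneg (by nlinarith [norm_nonneg a])]
    refine lt_of_le_of_lt (norm_add_le _ _) ?_
    rw [h1, h2]
    rw [norm_mul] at hab ⊢
    have h4 : 0 < (1 - ‖a‖) * (1 - ‖b‖) := mul_pos (by linarith) (by linarith)
    have h5 : 0 < (1 - ‖a‖) * (1 - ‖b‖) * (1 - ‖a‖ * ‖b‖) := mul_pos h4 (by linarith)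
    nlinarith
  · rintro ⟨h1, h2⟩
    obtain ⟨a, b, rfl⟩ := exists_roots z
    simp only at h1 h2
    refine ⟨a, b, ?_, ?_, rfl⟩
    · by_contra hcon
      push Not at hcon
      exact absurd h2 (not_lt.2 (key_ge hcon h1))
    · by_contra hcon
      push Not at hcon
      rw [mul_comm a b] at h1
      have := key_ge (a := b) (b := a) hcon h1
      rw [mul_comm a b, add_comm a b] at h2
      exact absurd h2 (not_lt.2 this)

lemma isOpen_symBidisc : IsOpen symBidisc := by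
  rw [symBidisc_eq]
  refine IsOpen.and (isOpen_lt (by fun_prop) (by fun_prop)) (isOpen_lt ?_ (by fun_prop))
  have : Continuous fun z : ℂ × ℂ => (starRingEnd ℂ) z.1 := Complex.continuous_conj.comp continuous_fst
  fun_prop

/-- The smooth boundary points. -/
lemma exists_of_frontier {p : ℂ × ℂ} (hp : p ∈ frontier symBidisc) (hs : p ∉ shilov) :
    ∃ l b : ℂ, ‖l‖ = 1 ∧ ‖b‖ < 1 ∧ p = (l + b, l * b) := by
  rw [frontier, isOpen_symBidisc.interior_eq] at hp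
  obtain ⟨hp1, hp2⟩ := hp
  have hK : IsClosed ((fun z : ℂ × ℂ => (z.1 + z.2, z.1 * z.2)) ''
      (closedBall (0 : ℂ) 1 ×ˢ closedBall (0 : ℂ) 1)) :=
    (((isCompact_closedBall _ _).prod (isCompact_closedBall _ _)).image (by fun_prop)).isClosed
  have hsub : symBidisc ⊆ (fun z : ℂ × ℂ => (z.1 + z.2, z.1 * z.2)) ''
      (closedBall (0 : ℂ) 1 ×ˢ closedBall (0 : ℂ) 1) := by
    rintro z ⟨a, b, ha, hb, rfl⟩
    exact ⟨(a, b), ⟨mem_closedBall_zero_iff.2 ha.le, mem_closedBall_zero_iff.2 hb.le⟩, rfl⟩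
  obtain ⟨⟨a, b⟩, ⟨ha, hb⟩, hab⟩ := closure_minimal hsub hK hp1
  have ha' : ‖a‖ ≤ 1 := mem_closedBall_zero_iff.1 ha
  have hb' : ‖b‖ ≤ 1 := mem_closedBall_zero_iff.1 hb
  simp only at hab
  rcases lt_or_eq_of_le ha' with h1 | h1
  · rcases lt_or_eq_of_le hb' with h2 | h2
    · exact absurd ⟨a, b, h1, h2, hab.symm⟩ hp2
    · exact ⟨b, a, h2, h1, by rw [← hab, add_comm, mul_comm]⟩
  · rcases lt_or_eq_of_le hb' with h2 | h2
    · exact ⟨a, b, h1, h2, hab.symm⟩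
    · exact absurd ⟨a, b, h1, h2, hab.symm⟩ hs

/-- (1) For every smooth boundary point `p` of the symmetrized bidisc, the pair
`(symBidisc, p)` has the Burns–Krantz rigidity property.

(2) It is even enough to assume the condition along one analytic disc: if `|l| = 1`, `|b| < 1` and
`F (a + b, a b) = (a + b, a b) + o(|a - l| ^ 3)` as `a → l`, `|a| < 1`, then the holomorphic
self-map `F` of the symmetrized bidisc is the identity. -/
theorem result :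
    (∀ p ∈ frontier symBidisc, p ∉ shilov → HasBurnsKrantzRigidity symBidisc p) ∧
    ∀ l b : ℂ, ‖l‖ = 1 → ‖b‖ < 1 → ∀ F : ℂ × ℂ → ℂ × ℂ,
      DifferentiableOn ℂ F symBidisc → MapsTo F symBidisc symBidisc →
      ((fun a : ℂ => eucl (F (a + b, a * b) - (a + b, a * b))) =o[𝓝[ball 0 1] l]
        fun a : ℂ => ‖a - l‖ ^ 3) →
      ∀ z ∈ symBidisc, F z = z := by
  refine ⟨?_, fun l b hl hb F hF hm ho => rigid_disc hl hb hF hm ho⟩
  intro p hp hs F hF hm ho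
  obtain ⟨l, b, hl, hb, rfl⟩ := exists_of_frontier hp hs
  refine rigid_disc hl hb hF hm ?_
  have ht : Tendsto (fun a : ℂ => (a + b, a * b)) (𝓝[ball 0 1] l) (𝓝[symBidisc] (l + b, l * b)) := by
    refine tendsto_nhdsWithin_iff.2 ⟨?_, ?_⟩
    · have : Continuous fun a : ℂ => (a + b, a * b) := by fun_prop
      exact (this.tendsto l).mono_left nhdsWithin_le_nhds
    · filter_upwards [self_mem_nhdsWithin] with a ha
      exact ⟨a, b, mem_ball_zero_iff.1 ha, hb, rfl⟩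
  have h1 := ho.comp_tendsto ht
  refine h1.trans_isBigO ?_
  refine IsBigO.of_bound (2 ^ 3) (Eventually.of_forall fun a => ?_)
  simp only [Function.comp]
  rw [Real.norm_of_nonneg (pow_nonneg (eucl_nonneg _) 3), Real.norm_of_nonneg (by positivity),
    ← mul_pow]
  refine pow_le_pow_left₀ (eucl_nonneg _) ?_ 3
  refine Real.sqrt_le_iff.2 ⟨by positivity, ?_⟩
  have e1 : ((a + b, a * b) - (l + b, l * b) : ℂ × ℂ).1 = a - l := by
    simp
  have e2 : ((a + b, a * b) - (l + b, l * b) : ℂ × ℂ).2 = (a - l) * b := by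
    simp only [Prod.snd_sub]
    ring
  rw [e1, e2, norm_mul]
  have h4 : ‖b‖ ^ 2 ≤ 1 := by nlinarith [norm_nonneg b]
  have h5 : (‖a - l‖ * ‖b‖) ^ 2 ≤ ‖a - l‖ ^ 2 := by
    rw [mul_pow]
    nlinarith [sq_nonneg ‖a - l‖]
  nlinarith [sq_nonneg ‖a - l‖]

end Pool.Agent.Results.MP_f98e31_an.SmoothPointRigidity
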